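import Mathlib

/-!
# Soluble groups with finitely generated element centralizers

Let `G` be a group with a finite index subgroup `H` whose commutator subgroup is nilpotent
(nilpotent-by-abelian-by-finite groups: for instance all soluble linear groups and all soluble
groups of finite rank).  If all element centralizers of `G` are finitely generated, then all
subgroups of `G` are finitely generated.

Idea: let `N` be a maximal nilpotent subgroup containing the commutator subgroup.  The module
`N / [N, N]` over the integral group ring of the abelianization is finitely generated over a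
noetherian commutative ring, and has a generic vector, whose annihilator consists of elements
acting nilpotently.  If `g` in `N` lifts it then, by a Hall type nilpotency criterion, the
centralizer of `g` lies in `N`.  So it is a finitely generated nilpotent group, and a nilpotent
group containing an element whose centralizer has all subgroups finitely generated has the same
property itself.
-/

set_option autoImplicit false

namespace Pool.Agent.Results.MP_d5e6ed_al.NilpotentByAbelianByFinite

universe u v

open scoped commutatorElement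

/-- all subgroups of `H` are finitely generated -/
def NS {G : Type*} [Group G] (H : Subgroup G) : Prop := ∀ K : Subgroup G, K ≤ H → K.FG

variable {G : Type*} [Group G] {L : Type*} [Group L]

lemma NS.mono {H K : Subgroup G} (h : NS H) (hK : K ≤ H) : NS K := fun J hJ => h J (hJ.trans hK)

lemma NS.fg {H : Subgroup G} (h : NS H) : H.FG := h H le_rfl

lemma fg_map {K : Subgroup G} (h : K.FG) (f : G →* L) : (K.map f).FG := by
  classical
  obtain ⟨S, hS⟩ := h
  refine ⟨S.image f, ?_⟩
  rw [← hS, MonoidHom.map_closure, Finset.coe_image]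

lemma NS.map {H : Subgroup G} (h : NS H) (f : G →* L) : NS (H.map f) := by
  intro K hK
  have h1 : K = (K.comap f ⊓ H).map f := by
    apply le_antisymm
    · intro x hx
      obtain ⟨y, hy, rfl⟩ := hK hx
      exact ⟨y, ⟨hx, hy⟩, rfl⟩
    · rintro _ ⟨y, hy, rfl⟩
      exact hy.1
  rw [h1]
  exact fg_map (h _ inf_le_right) f

lemma fg_of_ext (f : G →* L) (K : Subgroup G) (h1 : (K.map f).FG) (h2 : (K ⊓ f.ker).FG) :
    K.FG := by
  classical
  obtain ⟨S, hS⟩ := h1
  obtain ⟨T, hT⟩ := h2
  have hSK : ∀ s ∈ S, ∃ k ∈ K, f k = s := by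
    intro s hs
    have : s ∈ K.map f := by rw [← hS]; exact Subgroup.subset_closure hs
    exact this
  choose! k hk hfk using hSK
  refine ⟨S.image k ∪ T, ?_⟩
  have hle : Subgroup.closure (↑(S.image k ∪ T) : Set G) ≤ K := by
    rw [Subgroup.closure_le]
    intro x hx
    simp only [Finset.coe_union, Finset.coe_image, Set.mem_union, Set.mem_image,
      Finset.mem_coe] at hx
    rcases hx with ⟨s, hs, rfl⟩ | hx
    · exact hk s hs
    · have : x ∈ K ⊓ f.ker := by rw [← hT]; exact Subgroup.subset_closure hx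
      exact this.1
  apply le_antisymm hle
  intro x hx
  set D := Subgroup.closure (↑(S.image k ∪ T) : Set G) with hD
  have h3 : f x ∈ D.map f := by
    have h4 : f x ∈ Subgroup.closure (S : Set L) := by rw [hS]; exact ⟨x, hx, rfl⟩
    refine (Subgroup.closure_le (D.map f)).2 ?_ h4
    intro s hs
    refine ⟨k s, Subgroup.subset_closure ?_, hfk s hs⟩
    simp only [Finset.coe_union, Finset.coe_image, Set.mem_union, Set.mem_image,
      Finset.mem_coe]
    exact Or.inl ⟨s, hs, rfl⟩
  obtain ⟨d, hd, hfd⟩ := h3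
  have h5 : d⁻¹ * x ∈ K ⊓ f.ker := by
    refine Subgroup.mem_inf.2 ⟨K.mul_mem (K.inv_mem (hle hd)) hx, ?_⟩
    rw [MonoidHom.mem_ker, map_mul, map_inv, hfd]; simp
  rw [← hT] at h5
  have h6 : d⁻¹ * x ∈ D := by
    refine (Subgroup.closure_mono ?_) h5
    simp
  have : x = d * (d⁻¹ * x) := by group
  rw [this]
  exact D.mul_mem hd h6

lemma NS_ext (f : G →* L) (H : Subgroup G) (h1 : NS (H.map f)) (h2 : NS (H ⊓ f.ker)) :
    NS H := by
  intro K hK
  exact fg_of_ext f K (h1 _ (Subgroup.map_mono hK)) (h2 _ (inf_le_inf_right _ hK))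

/-- all subgroups of a finitely generated commutative group are finitely generated -/
lemma NS_of_comm (A : Type*) [CommGroup A] [hA : Group.FG A] : NS (⊤ : Subgroup A) := by
  intro K _
  have h1 : AddGroup.FG (Additive A) := GroupFG.iff_add_fg.1 hA
  have h2 : Module.Finite ℤ (Additive A) := Module.Finite.iff_addGroup_fg.2 h1
  have h3 : IsNoetherian ℤ (Additive A) := inferInstance
  have h4 := h3.noetherian (AddSubgroup.toIntSubmodule (Subgroup.toAddSubgroup K))
  rw [Submodule.fg_iff_addSubgroup_fg] at h4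
  rw [AddSubgroup.toIntSubmodule_toAddSubgroup] at h4
  exact (Subgroup.fg_iff_add_fg K).2 h4

lemma fg_map_subtype_iff (H : Subgroup G) (K : Subgroup H) : (K.map H.subtype).FG ↔ K.FG := by
  constructor
  · intro h
    have e := K.equivMapOfInjective H.subtype H.subtype_injective
    have h1 : Group.FG (K.map H.subtype) := (Group.fg_iff_subgroup_fg _).2 h
    have h2 : Group.FG K := Group.fg_of_surjective (f := e.symm.toMonoidHom) e.symm.surjective
    exact (Group.fg_iff_subgroup_fg _).1 h2
  · intro h
    exact fg_map h _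

lemma NS_top_iff (H : Subgroup G) : NS (⊤ : Subgroup H) ↔ NS H := by
  constructor
  · intro h K hK
    have h1 := h (K.subgroupOf H) le_top
    have h2 := (fg_map_subtype_iff H _).2 h1
    rwa [Subgroup.subgroupOf_map_subtype, inf_eq_left.2 hK] at h2
  · intro h K _
    rw [← fg_map_subtype_iff]
    refine h _ ?_
    rintro _ ⟨x, _, rfl⟩
    exact x.2


/-! ### finitely generated nilpotent groups -/

/-- If `L = ⁅M, ⊤⁆` is central and `M` is generated modulo `L` by a finite set then `L` is
finitely generated. -/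
lemma fg_commutator_central {G : Type*} [Group G] (hG : Group.FG G) (M : Subgroup G)
    (hc : ⁅M, (⊤ : Subgroup G)⁆ ≤ Subgroup.center G)
    (T : Set G) (hT : T.Finite) (hTM : T ⊆ M)
    (hM : M ≤ Subgroup.closure T ⊔ ⁅M, (⊤ : Subgroup G)⁆) :
    (⁅M, (⊤ : Subgroup G)⁆).FG := by
  classical
  obtain ⟨S, hS⟩ := hG.out
  set D : Subgroup G := Subgroup.closure (Set.image2 (fun t s => ⁅t, s⁆) T (S : Set G)) with hD
  have hDfin : (Set.image2 (fun t s => ⁅t, s⁆) T (S : Set G)).Finite :=
    hT.image2 _ S.finite_toSet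
  have hcent : ∀ m ∈ M, ∀ g : G, ⁅m, g⁆ ∈ Subgroup.center G := fun m hm g =>
    hc (Subgroup.commutator_mem_commutator hm (Subgroup.mem_top g))
  have hleD : D ≤ ⁅M, (⊤ : Subgroup G)⁆ := by
    rw [hD, Subgroup.closure_le]
    rintro _ ⟨t, ht, s, -, rfl⟩
    exact Subgroup.commutator_mem_commutator (hTM ht) (Subgroup.mem_top s)
  have hmulR : ∀ m ∈ M, ∀ g h : G, ⁅m, g * h⁆ = ⁅m, g⁆ * ⁅m, h⁆ := by
    intro m hm g h
    have h1 := Subgroup.mem_center_iff.1 (hcent m hm h) g
    have h2 : ⁅m, g * h⁆ = ⁅m, g⁆ * (g * ⁅m, h⁆ * g⁻¹) := by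
      simp only [commutatorElement_def]; group
    rw [h2, h1]; group
  have hmulL : ∀ m ∈ M, ∀ m' ∈ M, ∀ g : G, ⁅m * m', g⁆ = ⁅m, g⁆ * ⁅m', g⁆ := by
    intro m hm m' hm' g
    have h1 := Subgroup.mem_center_iff.1 (hcent m' hm' g) m
    have h2 := Subgroup.mem_center_iff.1 (hcent m hm g) (⁅m', g⁆)
    have h3 : ⁅m * m', g⁆ = (m * ⁅m', g⁆ * m⁻¹) * ⁅m, g⁆ := by
      simp only [commutatorElement_def]; group
    rw [h3, h1, ← h2]; group
  have hstep1 : ∀ t ∈ T, ∀ g : G, ⁅t, g⁆ ∈ D := by
    intro t ht g
    have hg : g ∈ Subgroup.closure (S : Set G) := by rw [hS]; trivial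
    induction hg using Subgroup.closure_induction with
    | mem x hx => exact Subgroup.subset_closure ⟨t, ht, x, hx, rfl⟩
    | one => simp
    | mul x y _ _ hx hy => rw [hmulR t (hTM ht)]; exact D.mul_mem hx hy
    | inv x _ hx =>
      have h1 := hmulR t (hTM ht) x x⁻¹
      rw [mul_inv_cancel, commutatorElement_one_right] at h1
      have h2 : ⁅t, x⁻¹⁆ = (⁅t, x⁆)⁻¹ := (eq_inv_of_mul_eq_one_right h1.symm)
      rw [h2]; exact D.inv_mem hx
  have hstep2 : ∀ m ∈ M, ∀ g : G, ⁅m, g⁆ ∈ D := by
    intro m hm g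
    have hTcl : Subgroup.closure T ≤ M := (Subgroup.closure_le _).2 hTM
    have hcl : ∀ y ∈ Subgroup.closure T, ⁅y, g⁆ ∈ D := by
      intro y hy
      induction hy using Subgroup.closure_induction with
      | mem x hx => exact hstep1 x hx g
      | one => simp
      | mul x y hx' hy' hx hy =>
        rw [hmulL x (hTcl hx') y (hTcl hy')]; exact D.mul_mem hx hy
      | inv x hx' hx =>
        have h1 := hmulL x (hTcl hx') x⁻¹ (M.inv_mem (hTcl hx')) g
        rw [mul_inv_cancel, commutatorElement_one_left] at h1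
        have h2 : ⁅x⁻¹, g⁆ = (⁅x, g⁆)⁻¹ := (eq_inv_of_mul_eq_one_right h1.symm)
        rw [h2]; exact D.inv_mem hx
    have hnorm : (⁅M, (⊤ : Subgroup G)⁆).Normal := by
      constructor
      intro n hn g'
      have := Subgroup.mem_center_iff.1 (hc hn) g'
      rw [this]; simpa using hn
    obtain ⟨y, hy, z, hz, rfl⟩ := Subgroup.mem_sup_of_normal_right.1 (hM hm)
    have hzM : z ∈ M := by
      have h1 : y⁻¹ * (y * z) ∈ M := M.mul_mem (M.inv_mem (hTcl hy)) hm
      simpa using h1
    rw [hmulL y (hTcl hy) z hzM]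
    have h2 : ⁅z, g⁆ = 1 := by
      rw [commutatorElement_eq_one_iff_mul_comm]
      exact (Subgroup.mem_center_iff.1 (hc hz) g).symm
    rw [h2, mul_one]
    exact hcl y hy
  have hEq : ⁅M, (⊤ : Subgroup G)⁆ = D :=
    le_antisymm (Subgroup.commutator_le.2 fun m hm g _ => hstep2 m hm g) hleD
  rw [hEq, hD]
  exact ⟨hDfin.toFinset, by simp⟩

lemma NS_of_center {G : Type*} [Group G] (K : Subgroup G) (hK : K ≤ Subgroup.center G)
    (hfg : K.FG) : NS K := by
  let _ : CommGroup K :=
    { (inferInstance : Group K) with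
      mul_comm := fun a b => Subtype.ext (by
        have := Subgroup.mem_center_iff.1 (hK a.2) b.1
        simpa using this.symm) }
  have : Group.FG K := (Group.fg_iff_subgroup_fg _).2 hfg
  exact (NS_top_iff K).1 (NS_of_comm K)

theorem NS_top_of_nilpotent_fg (n : ℕ) : ∀ (G : Type u) [Group G], Group.FG G →
    (⊤ : Subgroup G).lowerCentralSeries (n + 1) = ⊥ → NS (⊤ : Subgroup G) := by
  induction n with
  | zero =>
    intro G _ hG h
    rw [Subgroup.lowerCentralSeries_succ, Subgroup.lowerCentralSeries_zero,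
      Subgroup.commutator_top_right_eq_bot_iff_le_center] at h
    exact NS_of_center ⊤ h hG.out
  | succ n ih =>
    intro G _ hG h
    set Mn : Subgroup G := (⊤ : Subgroup G).lowerCentralSeries n with hMn
    set Ln : Subgroup G := (⊤ : Subgroup G).lowerCentralSeries (n + 1) with hLn
    have hL : Ln = ⁅Mn, (⊤ : Subgroup G)⁆ := by rw [hLn, hMn, Subgroup.lowerCentralSeries_succ]
    have hLc : Ln ≤ Subgroup.center G := by
      rw [Subgroup.lowerCentralSeries_succ, Subgroup.commutator_top_right_eq_bot_iff_le_center] at h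
      exact h
    have : Ln.Normal := by rw [hLn]; infer_instance
    have hq : NS (⊤ : Subgroup (G ⧸ Ln)) := by
      refine ih (G ⧸ Ln) inferInstance ?_
      have h1 := Subgroup.map_lowerCentralSeries (⊤ : Subgroup G) (QuotientGroup.mk' Ln) (n + 1)
      rw [Subgroup.map_top_of_surjective _ (QuotientGroup.mk'_surjective Ln)] at h1
      rw [← h1, QuotientGroup.map_mk'_self]
    have hMfg : (Mn.map (QuotientGroup.mk' Ln)).FG := hq _ le_top
    have hLfg : Ln.FG := by
      obtain ⟨S, hS⟩ := hMfg
      have hSM : ∀ s ∈ S, ∃ k ∈ Mn, QuotientGroup.mk' Ln k = s := by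
        intro s hs
        have : s ∈ Mn.map (QuotientGroup.mk' Ln) := by
          rw [← hS]; exact Subgroup.subset_closure hs
        exact this
      choose! k hk hfk using hSM
      rw [hL]
      refine fg_commutator_central hG Mn (by rw [← hL]; exact hLc) (k '' (S : Set _))
        (S.finite_toSet.image _) ?_ ?_
      · rintro _ ⟨s, hs, rfl⟩; exact hk s hs
      · rw [← hL]
        intro m hm
        have h3 : QuotientGroup.mk' Ln m ∈
            (Subgroup.closure (k '' (S : Set _))).map (QuotientGroup.mk' Ln) := by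
          rw [MonoidHom.map_closure]
          have h4 : QuotientGroup.mk' Ln m ∈ Subgroup.closure (S : Set (G ⧸ Ln)) := by
            rw [hS]; exact ⟨m, hm, rfl⟩
          refine Subgroup.closure_mono ?_ h4
          intro s hs
          exact ⟨k s, ⟨s, hs, rfl⟩, hfk s hs⟩
        obtain ⟨d, hd, hfd⟩ := h3
        have h5 : d⁻¹ * m ∈ Ln := by
          rw [← QuotientGroup.eq]; exact hfd
        have : m = d * (d⁻¹ * m) := by group
        rw [this]
        exact Subgroup.mul_mem_sup hd h5
    refine NS_ext (QuotientGroup.mk' Ln) ⊤ ?_ ?_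
    · exact hq.mono le_top
    · rw [QuotientGroup.ker_mk', top_inf_eq]
      exact NS_of_center Ln hLc hLfg

theorem NS_of_nilpotent_fg {G : Type u} [Group G] (H : Subgroup G) (hn : Group.IsNilpotent H)
    (hfg : H.FG) : NS H := by
  rw [← NS_top_iff]
  obtain ⟨n, hn'⟩ := Subgroup.nilpotent_iff_lowerCentralSeries.1 hn
  refine NS_top_of_nilpotent_fg n H ((Group.fg_iff_subgroup_fg _).2 hfg) ?_
  rw [Subgroup.lowerCentralSeries_succ, hn', Subgroup.commutator_bot_left]

/-! ### Hall-type criterion -/

lemma sup_commutator_le {G : Type*} [Group G] (A B M : Subgroup G) [A.Normal] [B.Normal]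
    [M.Normal] : ⁅A ⊔ B, M⁆ ≤ ⁅A, M⁆ ⊔ ⁅B, M⁆ := by
  set K := ⁅A, M⁆ ⊔ ⁅B, M⁆ with hK
  have hKn : K.Normal := by rw [hK]; infer_instance
  have h1 : (⁅A ⊔ B, M⁆).map (QuotientGroup.mk' K) = ⊥ := by
    rw [Subgroup.map_commutator, Subgroup.map_sup,
      Subgroup.commutator_eq_bot_iff_le_centralizer, sup_le_iff]
    constructor
    · rw [← Subgroup.commutator_eq_bot_iff_le_centralizer, ← Subgroup.map_commutator,
        Subgroup.map_eq_bot_iff, QuotientGroup.ker_mk']
      exact le_sup_left
    · rw [← Subgroup.commutator_eq_bot_iff_le_centralizer, ← Subgroup.map_commutator,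
        Subgroup.map_eq_bot_iff, QuotientGroup.ker_mk']
      exact le_sup_right
  rwa [Subgroup.map_eq_bot_iff, QuotientGroup.ker_mk'] at h1

lemma three_normal {G : Type*} [Group G] (A B M : Subgroup G) [A.Normal] [B.Normal] [M.Normal] :
    ⁅⁅A, B⁆, M⁆ ≤ ⁅⁅A, M⁆, B⁆ ⊔ ⁅A, ⁅B, M⁆⁆ := by
  set K := ⁅⁅A, M⁆, B⁆ ⊔ ⁅A, ⁅B, M⁆⁆ with hK
  have hKn : K.Normal := by rw [hK]; infer_instance
  have h1 : (⁅⁅A, B⁆, M⁆).map (QuotientGroup.mk' K) = ⊥ := by
    rw [Subgroup.map_commutator, Subgroup.map_commutator]
    apply Subgroup.commutator_commutator_eq_bot_of_rotate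
    · rw [← Subgroup.map_commutator, ← Subgroup.map_commutator, Subgroup.map_eq_bot_iff,
        QuotientGroup.ker_mk', Subgroup.commutator_comm]
      exact le_sup_right
    · rw [← Subgroup.map_commutator, ← Subgroup.map_commutator, Subgroup.map_eq_bot_iff,
        QuotientGroup.ker_mk', Subgroup.commutator_comm M A]
      exact le_sup_left
  rwa [Subgroup.map_eq_bot_iff, QuotientGroup.ker_mk'] at h1

/-- iterated commutators `⁅⋯⁅⁅A, M⁆, M⁆⋯, M⁆` -/
def it {G : Type*} [Group G] (A M : Subgroup G) : ℕ → Subgroup G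
  | 0 => A
  | n + 1 => ⁅it A M n, M⁆

section it

variable {G : Type*} [Group G]

lemma it_zero (A M : Subgroup G) : it A M 0 = A := rfl

lemma it_succ (A M : Subgroup G) (n : ℕ) : it A M (n + 1) = ⁅it A M n, M⁆ := rfl

lemma it_succ' (A M : Subgroup G) (n : ℕ) : it A M (n + 1) = it ⁅A, M⁆ M n := by
  induction n with
  | zero => rfl
  | succ n ih => rw [it_succ, ih, it_succ]

lemma it_add (A M : Subgroup G) (a b : ℕ) : it A M (a + b) = it (it A M a) M b := by
  induction b with
  | zero => rfl
  | succ n ih => rw [← add_assoc, it_succ, ih, it_succ]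

instance it_normal (A M : Subgroup G) [hA : A.Normal] [hM : M.Normal] (n : ℕ) :
    (it A M n).Normal := by
  induction n with
  | zero => exact hA
  | succ n ih => rw [it_succ]; infer_instance

lemma it_mono {A A' M : Subgroup G} (h : A ≤ A') (n : ℕ) : it A M n ≤ it A' M n := by
  induction n with
  | zero => exact h
  | succ n ih => exact Subgroup.commutator_mono ih le_rfl

lemma it_mono' {A A' M M' : Subgroup G} (h : A ≤ A') (h' : M ≤ M') (n : ℕ) :
    it A M n ≤ it A' M' n := by
  induction n with
  | zero => exact h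
  | succ n ih => exact Subgroup.commutator_mono ih h'

lemma it_le (A M : Subgroup G) [A.Normal] [M.Normal] (n : ℕ) : it A M n ≤ A := by
  induction n with
  | zero => exact le_rfl
  | succ n ih => exact le_trans (Subgroup.commutator_le_left _ _) ih

lemma it_sup (A B M : Subgroup G) [A.Normal] [B.Normal] [M.Normal] (n : ℕ) :
    it (A ⊔ B) M n ≤ it A M n ⊔ it B M n := by
  induction n with
  | zero => exact le_rfl
  | succ n ih => exact le_trans (Subgroup.commutator_mono ih le_rfl) (sup_commutator_le _ _ _)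

lemma map_it {L : Type*} [Group L] (f : G →* L) (A M : Subgroup G) (n : ℕ) :
    (it A M n).map f = it (A.map f) (M.map f) n := by
  induction n with
  | zero => rfl
  | succ n ih => rw [it_succ, Subgroup.map_commutator, ih, it_succ]

lemma it_commutator (M : Subgroup G) [M.Normal] (a : ℕ) : ∀ (b : ℕ) (A B : Subgroup G),
    A.Normal → B.Normal → it ⁅A, B⁆ M (a + b) ≤ ⁅it A M a, B⁆ ⊔ ⁅A, it B M b⁆ := by
  induction a with
  | zero =>
    intro b A B hA hB
    exact le_trans (it_le _ _ _) le_sup_left
  | succ a iha =>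
    intro b
    induction b with
    | zero =>
      intro A B hA hB
      exact le_trans (it_le _ _ _) le_sup_right
    | succ b ihb =>
      intro A B hA hB
      have e1 : a + 1 + (b + 1) = (a + (b + 1)) + 1 := by omega
      have e2 : a + (b + 1) = a + 1 + b := by omega
      rw [e1, it_succ']
      refine le_trans (it_mono (three_normal A B M) _) (le_trans (it_sup _ _ _ _) (sup_le ?_ ?_))
      · refine le_trans (iha (b + 1) ⁅A, M⁆ B inferInstance hB) (sup_le ?_ ?_)
        · rw [it_succ']; exact le_sup_left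
        · exact le_trans (Subgroup.commutator_mono (Subgroup.commutator_le_left _ _) le_rfl)
            le_sup_right
      · rw [e2]
        refine le_trans (ihb A ⁅B, M⁆ hA inferInstance) (sup_le ?_ ?_)
        · exact le_trans (Subgroup.commutator_mono le_rfl (Subgroup.commutator_le_left _ _))
            le_sup_left
        · rw [it_succ' B]; exact le_sup_right

theorem nilp_of_it (N M : Subgroup G) [hNn : N.Normal] [hMn : M.Normal]
    (hN : Group.IsNilpotent N) (hMM : ⁅M, M⁆ ≤ N) (k : ℕ) (hk : it N M k ≤ ⁅N, N⁆) :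
    Group.IsNilpotent M := by
  have h1 : ∀ i : ℕ, ∃ m : ℕ, it (N.lowerCentralSeries i) M m ≤ N.lowerCentralSeries (i + 1) := by
    intro i
    induction i with
    | zero => exact ⟨k, hk⟩
    | succ i ih =>
      obtain ⟨m, hm⟩ := ih
      refine ⟨m + k, ?_⟩
      have h2 : it (N.lowerCentralSeries (i + 1)) M (m + k) ≤
          ⁅it (N.lowerCentralSeries i) M m, N⁆ ⊔ ⁅N.lowerCentralSeries i, it N M k⁆ := by
        rw [Subgroup.lowerCentralSeries_succ]
        exact it_commutator M m k _ N inferInstance hNn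
      refine le_trans h2 (sup_le ?_ ?_)
      · rw [Subgroup.lowerCentralSeries_succ _ (i + 1)]
        exact Subgroup.commutator_mono hm le_rfl
      · refine le_trans (Subgroup.commutator_mono le_rfl hk) ?_
        rw [Subgroup.commutator_comm]
        refine le_trans (three_normal N N _) (sup_le ?_ ?_)
        · rw [Subgroup.commutator_comm N, Subgroup.lowerCentralSeries_succ,
            Subgroup.lowerCentralSeries_succ]
        · rw [Subgroup.commutator_comm N, Subgroup.commutator_comm N,
            Subgroup.lowerCentralSeries_succ, Subgroup.lowerCentralSeries_succ]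
  have h2 : ∀ i : ℕ, ∃ s : ℕ, it N M s ≤ N.lowerCentralSeries i := by
    intro i
    induction i with
    | zero => exact ⟨0, le_rfl⟩
    | succ i ih =>
      obtain ⟨s, hs⟩ := ih
      obtain ⟨m, hm⟩ := h1 i
      refine ⟨s + m, ?_⟩
      rw [it_add]
      exact le_trans (it_mono hs _) hm
  obtain ⟨c, hc⟩ := (Subgroup.isNilpotent_iff_lowerCentralSeries N).1 hN
  obtain ⟨s, hs⟩ := h2 c
  rw [hc, le_bot_iff] at hs
  rw [Subgroup.isNilpotent_iff_lowerCentralSeries]
  refine ⟨s + 1, ?_⟩
  have h3 : ∀ n : ℕ, M.lowerCentralSeries n = it M M n := by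
    intro n
    induction n with
    | zero => rfl
    | succ n ih => rw [Subgroup.lowerCentralSeries_succ, ih, it_succ]
  rw [h3, it_succ', ← le_bot_iff, ← hs]
  exact it_mono hMM s

end it

/-! ### a generic element of a finitely generated module over a noetherian ring -/

lemma minimal_prime_pow {R : Type*} [CommRing R] {I P : Ideal R} (hP : P ∈ I.minimalPrimes)
    {x : R} (hx : x ∈ P) : ∃ y ∉ P, ∃ n : ℕ, y * x ^ n ∈ I := by
  have hPp : P.IsPrime := hP.1.1
  by_contra hcon
  push Not at hcon
  have hdis : Disjoint (I : Set R) (P.primeCompl ⊔ Submonoid.powers x : Submonoid R) := by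
    rw [Set.disjoint_left]
    intro a ha hb
    rw [SetLike.mem_coe, Submonoid.mem_sup] at hb
    obtain ⟨y, hy, z, ⟨n, hn⟩, hyz⟩ := hb
    apply hcon y hy n
    rw [← hyz, ← hn] at ha
    exact ha
  obtain ⟨Q, hQ, hIQ, hdQ⟩ := Ideal.exists_le_prime_disjoint I _ hdis
  have hQP : Q ≤ P := by
    intro a ha
    by_contra haP
    exact Set.disjoint_left.1 hdQ ha (Submonoid.mem_sup_left haP)
  have hPQ : P ≤ Q := hP.2 ⟨hQ, hIQ⟩ hQP
  exact Set.disjoint_left.1 hdQ (hPQ hx) (Submonoid.mem_sup_right (Submonoid.mem_powers x))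

theorem exists_generic {R : Type*} [CommRing R] [IsNoetherianRing R] {V : Type*} [AddCommGroup V]
    [Module R V] [Module.Finite R V] :
    ∃ v : V, ∀ r : R, r • v = 0 → ∃ k : ℕ, ∀ w : V, r ^ k • w = 0 := by
  classical
  set I : Ideal R := Module.annihilator R V with hI
  have hfin : I.minimalPrimes.Finite := Ideal.finite_minimalPrimes_of_isNoetherianRing R I
  have key : ∀ F : Finset (Ideal R), (∀ P ∈ F, P ∈ I.minimalPrimes) →
      ∃ v : V, ∀ P ∈ F, ∀ r : R, r • v = 0 → r ∈ P := by
    intro F
    induction F using Finset.induction_on with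
    | empty => intro _; exact ⟨0, by simp⟩
    | insert P F hPF ih =>
      intro hF
      obtain ⟨u, hu⟩ := ih fun P' hP' => hF P' (Finset.mem_insert_of_mem hP')
      have hPm : P ∈ I.minimalPrimes := hF P (Finset.mem_insert_self _ _)
      have hPp : P.IsPrime := hPm.1.1
      by_cases hcase : ∀ r : R, r • u = 0 → r ∈ P
      · refine ⟨u, fun P' hP' => ?_⟩
        rcases Finset.mem_insert.1 hP' with rfl | h
        · exact hcase
        · exact hu P' h
      push Not at hcase
      obtain ⟨s, hsu, hsP⟩ := hcase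
      have hw : ∃ w : V, ∀ r : R, r • w = 0 → r ∈ P := by
        have h1 : (⟨P, hPp⟩ : PrimeSpectrum R) ∈ Module.support R V :=
          Module.mem_support_iff_of_finite.2 hPm.1.2
        obtain ⟨w, hw⟩ := Module.mem_support_iff_exists_annihilator.1 h1
        refine ⟨w, fun r hr => hw ?_⟩
        rw [Submodule.mem_annihilator_span_singleton]; exact hr
      obtain ⟨w, hw⟩ := hw
      have hr : ∀ P' ∈ F, ∃ r : R, r ∉ P ∧ ∃ y ∉ P', y * r ∈ I := by
        intro P' hP'
        have hP'm : P' ∈ I.minimalPrimes := hF P' (Finset.mem_insert_of_mem hP')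
        have hne : ¬ P' ≤ P := by
          intro hle
          have h2 : P ≤ P' := hPm.2 hP'm.1 hle
          exact hPF ((le_antisymm hle h2) ▸ hP')
        obtain ⟨x, hx, hxP⟩ := SetLike.not_le_iff_exists.1 hne
        obtain ⟨y, hy, n, hyn⟩ := minimal_prime_pow hP'm hx
        exact ⟨x ^ n, fun h => hxP (hPp.mem_of_pow_mem n h), y, hy, hyn⟩
      choose! ρ hρ1 hρ2 using hr
      set r : R := ∏ P' ∈ F, ρ P' with hrdef
      have hrP : r ∉ P := by
        intro h
        obtain ⟨P', hP', h'⟩ := (Ideal.IsPrime.prod_mem_iff (hp := hPp)).1 h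
        exact hρ1 P' hP' h'
      refine ⟨u + r • w, fun P' hP' t ht => ?_⟩
      rcases Finset.mem_insert.1 hP' with rfl | h
      · have h1 : (s * t * r) • w = 0 := by
          have h2 : s • (t • (u + r • w)) = 0 := by rw [ht, smul_zero]
          rw [smul_add, smul_add, smul_comm s t u, hsu, smul_zero, zero_add] at h2
          rw [mul_smul, mul_smul]; exact h2
        have h3 := hw _ h1
        rcases hPp.mem_or_mem h3 with h4 | h4
        · rcases hPp.mem_or_mem h4 with h5 | h5
          · exact absurd h5 hsP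
          · exact h5
        · exact absurd h4 hrP
      · obtain ⟨y, hyP', hyI⟩ := hρ2 P' h
        have hP'p : P'.IsPrime := (hF P' (Finset.mem_insert_of_mem h)).1.1
        have hyr : y * r ∈ I := by
          obtain ⟨q, hq⟩ := Finset.dvd_prod_of_mem ρ h
          rw [hrdef, hq, ← mul_assoc]
          exact I.mul_mem_right _ hyI
        have h1 : (y * t) • u = 0 := by
          have h2 : y • (t • (u + r • w)) = 0 := by rw [ht, smul_zero]
          have h3 : (y * r) • w = 0 := Module.mem_annihilator.1 hyr w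
          rw [smul_add, smul_add, smul_comm t r w, ← mul_smul y r, smul_comm (y * r) t w, h3,
            smul_zero, add_zero, ← mul_smul] at h2
          exact h2
        rcases hP'p.mem_or_mem (hu P' h _ h1) with h5 | h5
        · exact absurd h5 hyP'
        · exact h5
  obtain ⟨v, hv⟩ := key hfin.toFinset (fun P hP => hfin.mem_toFinset.1 hP)
  refine ⟨v, fun r hr => ?_⟩
  have h1 : r ∈ I.radical := by
    rw [← Ideal.sInf_minimalPrimes, Submodule.mem_sInf]
    intro P hP
    exact hv P (hfin.mem_toFinset.2 hP) r hr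
  obtain ⟨k, hk⟩ := h1
  exact ⟨k, fun w => Module.mem_annihilator.1 hk w⟩

/-! ### nilpotent groups with a small centralizer -/

lemma NS_of_map_subtype {G : Type*} [Group G] (H : Subgroup G) (K : Subgroup H)
    (h : NS (K.map H.subtype)) : NS K := by
  intro J hJ
  rw [← fg_map_subtype_iff]
  exact h _ (Subgroup.map_mono hJ)

theorem NS_of_centralizer {N : Type*} [Group N] (hN : Group.IsNilpotent N) (g : N)
    (h : NS (Subgroup.centralizer ({g} : Set N))) : NS (⊤ : Subgroup N) := by
  classical
  set Z : ℕ → Subgroup N := fun j => Subgroup.upperCentralSeries N j with hZ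
  have hZn : ∀ j, (Z j).Normal := fun j => by rw [hZ]; infer_instance
  have hstep : ∀ j (z : N), z ∈ Z (j + 1) ↔ ∀ y : N, ⁅z, y⁆ ∈ Z j := fun j z => Iff.rfl
  have key : ∀ j : ℕ, ∀ C : Subgroup N, (∀ z ∈ C, ⁅z, g⁆ ∈ Z j) → NS C := by
    intro j
    induction j with
    | zero =>
      intro C hC
      refine h.mono fun z hz => ?_
      have h1 := hC z hz
      have h2 : ⁅z, g⁆ = 1 := by simpa [hZ] using h1
      rw [Subgroup.mem_centralizer_singleton_iff]
      exact ((commutatorElement_eq_one_iff_mul_comm).1 h2)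
    | succ j ih =>
      intro C hC
      have := hZn j
      have hZs : NS (Z (j + 1)) := ih _ fun z hz => (hstep j z).1 hz g
      set π : N →* N ⧸ Z j := QuotientGroup.mk' (Z j) with hπ
      have hcen : ∀ z ∈ Z (j + 1), ∀ y : N ⧸ Z j, y * π z = π z * y := by
        intro z hz y
        obtain ⟨y, rfl⟩ := QuotientGroup.mk'_surjective (Z j) y
        have h1 : π ⁅z, y⁆ = 1 := by
          rw [hπ, QuotientGroup.mk'_apply, QuotientGroup.eq_one_iff]
          exact (hstep j z).1 hz y
        rw [map_commutatorElement, commutatorElement_eq_one_iff_mul_comm] at h1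
        exact h1.symm
      let φ : C →* N ⧸ Z j :=
        { toFun := fun z => π ⁅(z : N), g⁆
          map_one' := by simp
          map_mul' := by
            intro z z'
            have e1 : ⁅((z * z' : C) : N), g⁆ = (z : N) * ⁅(z' : N), g⁆ * (z : N)⁻¹ * ⁅(z : N), g⁆ := by
              simp only [Subgroup.coe_mul, commutatorElement_def]; group
            have e2 := hcen _ (hC z' z'.2) (π z)
            have e3 := hcen _ (hC z' z'.2) (π ⁅(z : N), g⁆)
            rw [e1, map_mul, map_mul, map_mul, e2, map_inv, mul_inv_cancel_right, e3] }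
      have hker : NS φ.ker := by
        refine NS_of_map_subtype C _ (ih _ ?_)
        rintro _ ⟨z, hz, rfl⟩
        have h1 : π ⁅(z : N), g⁆ = 1 := hz
        rw [hπ, QuotientGroup.mk'_apply, QuotientGroup.eq_one_iff] at h1
        exact h1
      have hran : NS ((⊤ : Subgroup C).map φ) := by
        refine (hZs.map π).mono ?_
        rintro _ ⟨z, -, rfl⟩
        exact ⟨_, hC z z.2, rfl⟩
      rw [← NS_top_iff]
      refine NS_ext φ ⊤ hran ?_
      rw [top_inf_eq]
      exact hker
  obtain ⟨n, hn⟩ := hN.nilpotent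
  refine key n ⊤ fun z _ => ?_
  have : Z n = ⊤ := hn
  rw [this]; trivial

/-! ### metabelian groups -/

lemma commutator_closure_le {G : Type*} [Group G] (X : Set G) (S K : Subgroup G) [K.Normal]
    (h : ∀ x ∈ X, ∀ s ∈ S, ⁅x, s⁆ ∈ K) : ⁅Subgroup.closure X, S⁆ ≤ K := by
  have h1 : Subgroup.closure X ≤
      (Subgroup.centralizer ((S.map (QuotientGroup.mk' K) : Subgroup (G ⧸ K)) : Set (G ⧸ K))).comap
        (QuotientGroup.mk' K) := by
    rw [Subgroup.closure_le]
    intro x hx
    rw [SetLike.mem_coe, Subgroup.mem_comap, Subgroup.mem_centralizer_iff]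
    rintro _ ⟨s, hs, rfl⟩
    have h2 := h x hx s hs
    rw [← QuotientGroup.eq_one_iff, ← QuotientGroup.mk'_apply, map_commutatorElement,
      commutatorElement_eq_one_iff_mul_comm] at h2
    exact h2.symm
  rw [Subgroup.commutator_le]
  intro x hx s hs
  have h2 := Subgroup.mem_comap.1 (h1 hx)
  rw [Subgroup.mem_centralizer_iff] at h2
  have h3 := h2 _ ⟨s, hs, rfl⟩
  rw [← QuotientGroup.eq_one_iff, ← QuotientGroup.mk'_apply, map_commutatorElement,
      commutatorElement_eq_one_iff_mul_comm]
  exact h3.symm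

theorem metabelian_generic {Q : Type*} [Group Q] (hQfg : Group.FG Q) (A : Subgroup Q)
    [hAn : A.Normal] (hA : ⁅A, A⁆ = ⊥) (hQ : commutator Q ≤ A) (T : Set Q) (hT : T.Finite)
    (hAT : A = Subgroup.normalClosure T) :
    ∃ a ∈ A, ∀ x : Q, x * a = a * x → ∃ k : ℕ, it A (Subgroup.closure (A ∪ {x})) k = ⊥ := by
  classical
  have hcomm : ∀ a ∈ A, ∀ b ∈ A, a * b = b * a := by
    intro a ha b hb
    have h1 : ⁅a, b⁆ ∈ (⊥ : Subgroup Q) := hA ▸ Subgroup.commutator_mem_commutator ha hb
    exact commutatorElement_eq_one_iff_mul_comm.1 (Subgroup.mem_bot.1 h1)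
  let _ : CommGroup A :=
    { (inferInstance : Group A) with
      mul_comm := fun a b => Subtype.ext (hcomm a a.2 b b.2) }
  let V := Additive A
  let ρ : Q →* Module.End ℤ (Additive A) :=
    { toFun := fun q => AddMonoidHom.toIntLinearMap
        (MonoidHom.toAdditive ((MulAut.conjNormal q : MulAut A).toMonoidHom))
      map_one' := by ext v; simp
      map_mul' := by intro q q'; ext v; simp }
  have hρ : ∀ (q : Q) (v : Additive A), (((ρ q v).toMul : A) : Q) = q * (v.toMul : A) * q⁻¹ := by
    intro q v
    rfl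
  have hker : ∀ c ∈ commutator Q, ρ c = 1 := by
    intro c hc
    apply LinearMap.ext
    intro v
    apply Additive.toMul.injective
    apply Subtype.ext
    rw [hρ, hcomm c (hQ hc) _ (v.toMul).2]
    simp
  let ρ' : Abelianization Q →* Module.End ℤ (Additive A) :=
    QuotientGroup.lift (commutator Q) ρ hker
  let Φ : MonoidAlgebra ℤ (Abelianization Q) →ₐ[ℤ] Module.End ℤ (Additive A) :=
    MonoidAlgebra.lift ℤ _ _ ρ'
  let _ : Module (MonoidAlgebra ℤ (Abelianization Q)) (Additive A) :=
    Module.compHom (Additive A) Φ.toRingHom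
  have hsmul : ∀ (q : Q) (v : Additive A),
      (MonoidAlgebra.of ℤ (Abelianization Q) (Abelianization.of q)) • v = ρ q v := by
    intro q v
    change Φ (MonoidAlgebra.of ℤ (Abelianization Q) (Abelianization.of q)) v = ρ q v
    rw [MonoidAlgebra.lift_of]
    rfl
  -- subgroups attached to submodules
  let sub : Submodule (MonoidAlgebra ℤ (Abelianization Q)) (Additive A) → Subgroup Q := fun W =>
    { carrier := {q | ∃ h : q ∈ A, Additive.ofMul (⟨q, h⟩ : A) ∈ W}
      mul_mem' := by
        rintro a b ⟨ha, ha'⟩ ⟨hb, hb'⟩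
        exact ⟨A.mul_mem ha hb, W.add_mem ha' hb'⟩
      one_mem' := ⟨A.one_mem, W.zero_mem⟩
      inv_mem' := by
        rintro a ⟨ha, ha'⟩
        exact ⟨A.inv_mem ha, W.neg_mem ha'⟩ }
  have hsub : ∀ W (q : Q), q ∈ sub W ↔ ∃ h : q ∈ A, Additive.ofMul (⟨q, h⟩ : A) ∈ W :=
    fun W q => Iff.rfl
  have hsubn : ∀ W, (sub W).Normal := by
    intro W
    constructor
    rintro a ⟨ha, ha'⟩ q
    have h1 : q * a * q⁻¹ ∈ A := hAn.conj_mem a ha q
    refine ⟨h1, ?_⟩
    have h2 := W.smul_mem (MonoidAlgebra.of ℤ (Abelianization Q) (Abelianization.of q)) ha'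
    rw [hsmul] at h2
    have h3 : ρ q (Additive.ofMul (⟨a, ha⟩ : A)) = Additive.ofMul (⟨q * a * q⁻¹, h1⟩ : A) := by
      apply Additive.toMul.injective
      apply Subtype.ext
      rw [hρ]; rfl
    rw [← h3]; exact h2
  -- finiteness
  have hTA : ∀ t ∈ T, t ∈ A := fun t ht => by
    rw [hAT]; exact Subgroup.subset_normalClosure ht
  have hfinite : Module.Finite (MonoidAlgebra ℤ (Abelianization Q)) (Additive A) := by
    let T' : Set (Additive A) := {v | ((v.toMul : A) : Q) ∈ T}
    have hT' : T'.Finite := by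
      refine Set.Finite.preimage ?_ hT
      intro a _ b _ hab
      exact Additive.toMul.injective (Subtype.ext hab)
    refine ⟨⟨hT'.toFinset, ?_⟩⟩
    rw [Set.Finite.coe_toFinset]
    set W := Submodule.span (MonoidAlgebra ℤ (Abelianization Q)) T' with hW
    have h1 : A ≤ sub W := by
      rw [hAT]
      have := hsubn W
      refine Subgroup.normalClosure_le_normal ?_
      intro t ht
      exact ⟨hTA t ht, Submodule.subset_span ht⟩
    rw [eq_top_iff]
    rintro v -
    obtain ⟨h, h'⟩ := h1 (v.toMul).2
    exact h'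
  have hnoeth : IsNoetherianRing (MonoidAlgebra ℤ (Abelianization Q)) := by
    have h0 : Group.FG (Abelianization Q) :=
      Group.fg_of_surjective (f := Abelianization.of) (QuotientGroup.mk'_surjective _)
    have h1 : Monoid.FG (Abelianization Q) := Group.fg_iff_monoid_fg.1 h0
    have h2 : Algebra.FiniteType ℤ (MonoidAlgebra ℤ (Abelianization Q)) := inferInstance
    exact Algebra.FiniteType.isNoetherianRing ℤ _
  obtain ⟨v, hv⟩ := exists_generic (R := MonoidAlgebra ℤ (Abelianization Q)) (V := Additive A)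
  refine ⟨((v.toMul : A) : Q), (v.toMul).2, fun x hx => ?_⟩
  set r : MonoidAlgebra ℤ (Abelianization Q) :=
    MonoidAlgebra.of ℤ (Abelianization Q) (Abelianization.of x) - 1 with hr
  have hrw : ∀ w : Additive A, r • w = ρ x w - w := by
    intro w
    rw [hr, sub_smul, one_smul, hsmul]
  have hrv : r • v = 0 := by
    rw [hrw, sub_eq_zero]
    apply Additive.toMul.injective
    apply Subtype.ext
    rw [hρ, hx]; group
  obtain ⟨k, hk⟩ := hv r hrv
  refine ⟨k, ?_⟩
  set M := Subgroup.closure ((A : Set Q) ∪ {x}) with hM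
  let Wj : ℕ → Submodule (MonoidAlgebra ℤ (Abelianization Q)) (Additive A) := fun j =>
    LinearMap.range (LinearMap.lsmul (MonoidAlgebra ℤ (Abelianization Q)) (Additive A) (r ^ j))
  have hj : ∀ j, it A M j ≤ sub (Wj j) := by
    intro j
    induction j with
    | zero =>
      intro a ha
      exact ⟨ha, ⟨Additive.ofMul ⟨a, ha⟩, by simp⟩⟩
    | succ j ih =>
      rw [it_succ, Subgroup.commutator_comm]
      have := hsubn (Wj (j + 1))
      refine le_trans (Subgroup.commutator_mono le_rfl ih) (commutator_closure_le _ _ _ ?_)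
      rintro y hy s ⟨hsA, hs⟩
      rcases hy with hy | hy
      · have h1 : ⁅y, s⁆ = 1 := commutatorElement_eq_one_iff_mul_comm.2 (hcomm y hy s hsA)
        rw [h1]; exact Subgroup.one_mem _
      · rw [Set.mem_singleton_iff] at hy
        subst hy
        obtain ⟨w, hw⟩ := hs
        rw [LinearMap.lsmul_apply] at hw
        have h1 : y * s * y⁻¹ ∈ A := hAn.conj_mem s hsA y
        have h2 : ⁅y, s⁆ ∈ A := by
          rw [commutatorElement_def]; exact A.mul_mem h1 (A.inv_mem hsA)
        refine ⟨h2, ⟨w, ?_⟩⟩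
        rw [LinearMap.lsmul_apply, pow_succ', mul_smul, hw, hrw]
        apply Additive.toMul.injective
        apply Subtype.ext
        rw [toMul_sub, Subgroup.coe_div, hρ, div_eq_mul_inv]
        rfl
  rw [eq_bot_iff]
  refine le_trans (hj k) ?_
  rintro q ⟨hqA, w, hw⟩
  rw [LinearMap.lsmul_apply, hk] at hw
  have h1 : (1 : A) = ⟨q, hqA⟩ := congrArg Additive.toMul hw
  rw [Subgroup.mem_bot]
  exact (congrArg Subtype.val h1).symm

/-! ### the main theorem -/

lemma commutator_closure_closure_le {G : Type*} [Group G] (X Y : Set G) (K : Subgroup G)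
    [K.Normal] (h : ∀ x ∈ X, ∀ y ∈ Y, ⁅x, y⁆ ∈ K) :
    ⁅Subgroup.closure X, Subgroup.closure Y⁆ ≤ K := by
  refine commutator_closure_le X _ K fun x hx s hs => ?_
  have h1 : ⁅Subgroup.closure Y, Subgroup.zpowers x⁆ ≤ K := by
    refine commutator_closure_le Y _ K fun y hy s hs => ?_
    obtain ⟨n, rfl⟩ := Subgroup.mem_zpowers_iff.1 hs
    have h2 := h x hx y hy
    rw [← QuotientGroup.eq_one_iff, ← QuotientGroup.mk'_apply, map_commutatorElement,
      commutatorElement_eq_one_iff_commute] at h2
    rw [← QuotientGroup.eq_one_iff, ← QuotientGroup.mk'_apply, map_commutatorElement,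
      commutatorElement_eq_one_iff_commute, map_zpow]
    exact (h2.symm).zpow_right n
  have h2 : ⁅s, x⁆ ∈ K :=
    h1 (Subgroup.commutator_mem_commutator hs (Subgroup.mem_zpowers x))
  rw [← commutatorElement_inv]
  exact K.inv_mem h2

lemma finite_normal_generation {G : Type*} [Group G] (hG : Group.FG G) (N : Subgroup G)
    [hN : N.Normal] (hGN : commutator G ≤ N) :
    ∃ T : Set G, T.Finite ∧ N = Subgroup.normalClosure T := by
  classical
  obtain ⟨S, hS⟩ := hG.out
  set F : Set G := Set.image2 (fun s t => ⁅s, t⁆) (S : Set G) (S : Set G) with hF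
  have hFfin : F.Finite := S.finite_toSet.image2 _ S.finite_toSet
  have h1 : commutator G ≤ Subgroup.normalClosure F := by
    rw [commutator_def, ← hS]
    refine commutator_closure_closure_le _ _ _ ?_
    intro x hx y hy
    exact Subgroup.subset_normalClosure ⟨x, hx, y, hy, rfl⟩
  have hAb : Group.FG (Abelianization G) :=
    Group.fg_of_surjective (f := Abelianization.of) (QuotientGroup.mk'_surjective _)
  obtain ⟨S2, hS2⟩ := NS_of_comm (Abelianization G) (N.map Abelianization.of) le_top
  have hlift : ∀ s ∈ S2, ∃ k ∈ N, Abelianization.of k = s := by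
    intro s hs
    have : s ∈ N.map Abelianization.of := by rw [← hS2]; exact Subgroup.subset_closure hs
    exact this
  choose! k hk hfk using hlift
  refine ⟨F ∪ k '' (S2 : Set _), hFfin.union (S2.finite_toSet.image _), le_antisymm ?_ ?_⟩
  · intro n hn
    have h3 : Abelianization.of n ∈
        (Subgroup.closure (k '' (S2 : Set _))).map Abelianization.of := by
      rw [MonoidHom.map_closure]
      have h4 : Abelianization.of n ∈ Subgroup.closure (S2 : Set (Abelianization G)) := by
        rw [hS2]; exact ⟨n, hn, rfl⟩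
      refine Subgroup.closure_mono ?_ h4
      intro s hs
      exact ⟨k s, ⟨s, hs, rfl⟩, hfk s hs⟩
    obtain ⟨d, hd, hfd⟩ := h3
    have h5 : d⁻¹ * n ∈ commutator G := by
      rw [← QuotientGroup.eq]; exact hfd
    have h6 : n = d * (d⁻¹ * n) := by group
    rw [h6]
    refine Subgroup.mul_mem _ ?_ ?_
    · refine (Subgroup.closure_le _).2 ?_ hd
      exact fun x hx => Subgroup.subset_normalClosure (Or.inr hx)
    · exact Subgroup.normalClosure_mono Set.subset_union_left (h1 h5)
  · refine Subgroup.normalClosure_le_normal ?_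
    rintro x (hx | hx)
    · obtain ⟨s, -, t, -, rfl⟩ := hx
      exact hGN (Subgroup.commutator_mem_commutator (Subgroup.mem_top s) (Subgroup.mem_top t))
    · obtain ⟨s, hs, rfl⟩ := hx
      exact hk s hs

lemma exists_maximal_nilpotent {G : Type*} [Group G] (hG : Group.FG G)
    (hn : Group.IsNilpotent (commutator G)) :
    ∃ N : Subgroup G, commutator G ≤ N ∧ Group.IsNilpotent N ∧
      ∀ M : Subgroup G, N ≤ M → Group.IsNilpotent M → M ≤ N := by
  classical
  have hAb : Group.FG (Abelianization G) :=
    Group.fg_of_surjective (f := Abelianization.of) (QuotientGroup.mk'_surjective _)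
  have h1 : AddGroup.FG (Additive (Abelianization G)) := GroupFG.iff_add_fg.1 hAb
  have h2 : Module.Finite ℤ (Additive (Abelianization G)) := Module.Finite.iff_addGroup_fg.2 h1
  have h3 : IsNoetherian ℤ (Additive (Abelianization G)) := inferInstance
  let f : Subgroup G → Submodule ℤ (Additive (Abelianization G)) := fun N =>
    AddSubgroup.toIntSubmodule (Subgroup.toAddSubgroup (N.map Abelianization.of))
  let Fam : Set (Submodule ℤ (Additive (Abelianization G))) :=
    {W | ∃ N : Subgroup G, commutator G ≤ N ∧ Group.IsNilpotent N ∧ f N = W}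
  obtain ⟨W, ⟨N, hN1, hN2, rfl⟩, hmax⟩ := set_has_maximal_iff_noetherian.2 h3 Fam
    ⟨f (commutator G), commutator G, le_rfl, hn, rfl⟩
  refine ⟨N, hN1, hN2, fun M hNM hM => ?_⟩
  have h4 : ¬ f N < f M := hmax (f M) ⟨M, hN1.trans hNM, hM, rfl⟩
  have h5 : N.map Abelianization.of ≤ M.map Abelianization.of := Subgroup.map_mono hNM
  have h6 : f N ≤ f M := h5
  have h7 : f M ≤ f N := by
    by_contra hcon
    exact h4 (lt_of_le_not_ge h6 hcon)
  have h8 : M.map Abelianization.of ≤ N.map Abelianization.of := h7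
  intro m hm
  obtain ⟨d, hd, hfd⟩ := h8 ⟨m, hm, rfl⟩
  have h9 : d⁻¹ * m ∈ commutator G := by
    rw [← QuotientGroup.eq]; exact hfd
  have h10 : m = d * (d⁻¹ * m) := by group
  rw [h10]
  exact N.mul_mem hd (hN1 h9)

lemma isNilpotent_mono {G : Type*} [Group G] {H K : Subgroup G} (h : H ≤ K)
    (hK : Group.IsNilpotent K) : Group.IsNilpotent H := by
  rw [Subgroup.isNilpotent_iff_lowerCentralSeries] at hK ⊢
  obtain ⟨n, hn⟩ := hK
  refine ⟨n, ?_⟩
  rw [← le_bot_iff, ← hn]
  exact Subgroup.lowerCentralSeries_mono n h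

theorem main1 {G : Type u} [Group G] (hG : Group.FG G)
    (hn : Group.IsNilpotent (commutator G)) :
    ∃ g : G, (Subgroup.centralizer ({g} : Set G)).FG → NS (⊤ : Subgroup G) := by
  classical
  obtain ⟨N, hGN, hNn, hmax⟩ := exists_maximal_nilpotent hG hn
  have hNnormal : N.Normal := Subgroup.Normal.of_commutator_le (G := G) hGN
  obtain ⟨T, hT, hNT⟩ := finite_normal_generation hG N hGN
  set π : G →* G ⧸ ⁅N, N⁆ := QuotientGroup.mk' ⁅N, N⁆ with hπ
  have hπs : Function.Surjective π := QuotientGroup.mk'_surjective _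
  have hAn : (N.map π).Normal := hNnormal.map π hπs
  have hQfg : Group.FG (G ⧸ ⁅N, N⁆) := Group.fg_of_surjective hπs
  have hA : ⁅N.map π, N.map π⁆ = ⊥ := by
    rw [← Subgroup.map_commutator, Subgroup.map_eq_bot_iff, hπ, QuotientGroup.ker_mk']
  have hQ : commutator (G ⧸ ⁅N, N⁆) ≤ N.map π := by
    rw [commutator_def, ← Subgroup.map_top_of_surjective π hπs, ← Subgroup.map_commutator]
    exact Subgroup.map_mono hGN
  have hAT : N.map π = Subgroup.normalClosure (π '' T) := by
    have h1 := Subgroup.map_normalClosure T π hπs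
    rw [← hNT] at h1
    exact h1
  obtain ⟨a, ⟨g, hg, rfl⟩, hgen⟩ :=
    metabelian_generic hQfg (N.map π) hA hQ (π '' T) (hT.image _) hAT
  have hcent : Subgroup.centralizer ({g} : Set G) ≤ N := by
    intro x hx
    rw [Subgroup.mem_centralizer_singleton_iff] at hx
    obtain ⟨k, hk⟩ := hgen (π x) (by rw [← map_mul, ← map_mul, hx])
    set M : Subgroup G := Subgroup.closure ((N : Set G) ∪ {x}) with hM
    have hNM : N ≤ M := fun y hy => Subgroup.subset_closure (Or.inl hy)
    have hMn : M.Normal := Subgroup.Normal.of_commutator_le (G := G) (hGN.trans hNM)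
    have h1 : M.map π = Subgroup.closure ((N.map π : Set (G ⧸ ⁅N, N⁆)) ∪ {π x}) := by
      rw [hM, MonoidHom.map_closure, Set.image_union, Set.image_singleton, Subgroup.coe_map]
    rw [← h1, ← map_it, Subgroup.map_eq_bot_iff, hπ, QuotientGroup.ker_mk'] at hk
    have hMM : ⁅M, M⁆ ≤ N :=
      le_trans (Subgroup.commutator_mono le_top le_top) hGN
    have hMnil := nilp_of_it N M hNn hMM k hk
    exact hmax M hNM hMnil (Subgroup.subset_closure (Or.inr rfl))
  refine ⟨g, fun hcg => ?_⟩
  have hNSc : NS (Subgroup.centralizer ({g} : Set G)) :=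
    NS_of_nilpotent_fg _ (isNilpotent_mono hcent hNn) hcg
  have hNSc' : NS (Subgroup.centralizer ({⟨g, hg⟩} : Set N)) := by
    refine NS_of_map_subtype N _ (hNSc.mono ?_)
    rintro _ ⟨y, hy, rfl⟩
    rw [SetLike.mem_coe, Subgroup.mem_centralizer_singleton_iff] at hy
    rw [Subgroup.mem_centralizer_singleton_iff]
    exact congrArg Subtype.val hy
  have hNSN : NS N := (NS_top_iff N).1 (NS_of_centralizer hNn _ hNSc')
  have hAb : Group.FG (Abelianization G) :=
    Group.fg_of_surjective (f := Abelianization.of) (QuotientGroup.mk'_surjective _)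
  refine NS_ext Abelianization.of ⊤ ((NS_of_comm (Abelianization G)).mono le_top) ?_
  refine hNSN.mono (le_trans inf_le_right ?_)
  intro x hx
  have h1 : x ∈ commutator G := by
    rw [MonoidHom.mem_ker] at hx
    exact (QuotientGroup.eq_one_iff x).1 hx
  exact hGN h1

/-- Let `H` be a finite index subgroup of a finitely generated group `G`, with `⁅H, H⁆`
nilpotent.  Then some `g` in `H` is such that `G` has all its subgroups finitely generated as
soon as the centralizer of `g` is finitely generated. -/
theorem main2 {G : Type u} [Group G] (hG : Group.FG G) (H : Subgroup G) [hHf : H.FiniteIndex]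
    (hn : Group.IsNilpotent (commutator H)) :
    ∃ g ∈ H, (Subgroup.centralizer ({g} : Set G)).FG → ∀ K : Subgroup G, K.FG := by
  classical
  have hHfg : Group.FG H := inferInstance
  obtain ⟨h, hh⟩ := main1 hHfg hn
  refine ⟨(h : G), h.2, fun hc => ?_⟩
  have h1 : NS (⊤ : Subgroup H) := by
    apply hh
    have h2 : Group.FG (Subgroup.centralizer ({(h : G)} : Set G)) :=
      (Group.fg_iff_subgroup_fg _).2 hc
    have h3 : Group.FG (H.subgroupOf (Subgroup.centralizer ({(h : G)} : Set G))) := inferInstance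
    have h4 := (Group.fg_iff_subgroup_fg _).1 h3
    have h5 := (fg_map_subtype_iff _ _).2 h4
    rw [Subgroup.subgroupOf_map_subtype] at h5
    rw [← fg_map_subtype_iff]
    have h6 : (Subgroup.centralizer ({h} : Set H)).map H.subtype =
        H ⊓ Subgroup.centralizer ({(h : G)} : Set G) := by
      ext x
      constructor
      · rintro ⟨y, hy, rfl⟩
        rw [SetLike.mem_coe, Subgroup.mem_centralizer_singleton_iff] at hy
        refine Subgroup.mem_inf.2 ⟨y.2, ?_⟩
        rw [Subgroup.mem_centralizer_singleton_iff]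
        exact congrArg Subtype.val hy
      · intro hx
        obtain ⟨hx1, hx2⟩ := Subgroup.mem_inf.1 hx
        rw [Subgroup.mem_centralizer_singleton_iff] at hx2
        refine ⟨⟨x, hx1⟩, ?_, rfl⟩
        rw [SetLike.mem_coe, Subgroup.mem_centralizer_singleton_iff]
        exact Subtype.ext hx2
    rw [h6]
    exact h5
  have hNSH : NS H := (NS_top_iff H).1 h1
  intro K
  have hcore : (H.normalCore).FiniteIndex := inferInstance
  refine fg_of_ext (QuotientGroup.mk' H.normalCore) K ?_ ?_
  · have : Finite (G ⧸ H.normalCore) := inferInstance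
    have h2 : Finite (K.map (QuotientGroup.mk' H.normalCore)) := inferInstance
    exact (Group.fg_iff_subgroup_fg _).1 inferInstance
  · rw [QuotientGroup.ker_mk']
    exact hNSH _ (inf_le_right.trans (Subgroup.normalCore_le H))

/-- Soluble groups that are nilpotent-by-abelian-by-finite: if every element centralizer of `G`
is finitely generated then every subgroup of `G` is finitely generated; and for finitely generated
`G` the centralizer of one suitable element already decides this. -/
theorem result {G : Type u} [Group G] (H : Subgroup G) [H.FiniteIndex]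
    (hn : Group.IsNilpotent (commutator H)) :
    ((∀ g : G, (Subgroup.centralizer ({g} : Set G)).FG) → ∀ K : Subgroup G, K.FG) ∧
      (Group.FG G → ∃ g ∈ H, ((Subgroup.centralizer ({g} : Set G)).FG ↔
        ∀ K : Subgroup G, K.FG)) := by
  constructor
  · intro hc
    have hG : Group.FG G := by
      have h1 := hc 1
      have h2 : Subgroup.centralizer ({1} : Set G) = ⊤ := by
        rw [eq_top_iff]
        intro x _
        rw [Subgroup.mem_centralizer_singleton_iff]; simp
      rw [h2] at h1
      exact ⟨h1⟩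
    obtain ⟨g, -, hg⟩ := main2 hG H hn
    exact hg (hc g)
  · intro hG
    obtain ⟨g, hgH, hg⟩ := main2 hG H hn
    exact ⟨g, hgH, hg, fun h => h _⟩

end Pool.Agent.Results.MP_d5e6ed_al.NilpotentByAbelianByFinite
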